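import Pool.Agent.TH447.KL.IncRate

/-!
# Minimal balance constants of posets of width `w` with at most `C * w` elements incomparable to
every element, with an explicit rate
-/

set_option autoImplicit false

namespace Pool.Agent.Results.MP_c890a7_co.IncomparabilityRate

open Pool.Agent.TH447.KL Pool.Agent.TH447.KLR

theorem result :
    ∀ C : ℝ, 3 ≤ C →
      (∀ w : ℕ, 1 ≤ w → dAll w ≤ dInc C w ∧ dInc C w ≤ 1 / 2 - 1 / (12 * (w : ℝ) - 8)) ∧
      (∀ (ε : ℝ) (w : ℕ), 0 < ε → ε ≤ 1 / 2 → 1 ≤ w →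
        20000000 * Real.log ((5 * C + 1) / ε) ^ 3 / ε ^ 4 ≤ Real.log w →
        1 / 2 - ε ≤ dInc C w) ∧
      (∀ w v : ℕ, 1 ≤ w →
        20000000 * (12 * (w : ℝ) - 7) ^ 4 * Real.log ((5 * C + 1) * (12 * w - 7)) ^ 3
          ≤ Real.log v →
        dInc C w < dInc C v) :=
  fun _ hC => ⟨fun w hw => ⟨dAll_le_dInc hC w hw, dInc_le hC w hw⟩,
    fun _ _ hε0 hε2 hw1 hw => dInc_rate hC hε0 hε2 hw1 hw,
    fun _ _ hw1 hv => dInc_growth_explicit hC hw1 hv⟩

end Pool.Agent.Results.MP_c890a7_co.IncomparabilityRate
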