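import Pool.Agent.TH447.KS.IntFin

/-!
# Minimal balance constants of interval orders by width

`dI w` is the infimum of the balance constants of the interval orders of width `w`.  It lies between
`1/2 - 3 (1 + log w) / √w` and `1/2 - 1 / (12 w - 8)`.  So `dI w` tends to `1/2` (the statement of
Kahn and Saks holds for interval orders) and it grows with the width in the following sense: for
every `w ≥ 1` all sufficiently large `v` satisfy `dI w < dI v`.
-/

set_option autoImplicit false

namespace Pool.Agent.Results.MP_c890a7_co.IntervalOrderGrowth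

open Pool.Agent.H13R3.WB Pool.Agent.H931R3.Bal Pool.Agent.TH447.KS

theorem result :
    (∀ w : ℕ, 1 ≤ w →
      (∀ (P : Type) [Fintype P] [PartialOrder P], IsIntervalOrder P → HasWidth P w →
        1 / 2 - 3 * (1 + Real.log w) / Real.sqrt w ≤ balance P) ∧
      1 / 2 - 3 * (1 + Real.log w) / Real.sqrt w ≤ dI w ∧
      dI w ≤ 1 / 2 - 1 / (12 * (w : ℝ) - 8)) ∧
    (∀ w : ℕ, 1 ≤ w → ∃ W : ℕ, ∀ v : ℕ, W ≤ v → dI w < dI v) :=
  ⟨fun w hw => ⟨fun P _ _ h1 h2 => interval_balance P h1 w hw h2, dI_ge w hw, dI_le w hw⟩,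
    fun w hw => dI_growth w hw⟩

end Pool.Agent.Results.MP_c890a7_co.IntervalOrderGrowth
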