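import Pool.Agent.H293R3.BC.Count
import Pool.Agent.TH161.KS.Full

/-!
# The minimal balance constants of posets of width `w` tend to one half

With `δ_w` the infimum of the balance constants of the finite posets of width `w`, exactly as in the
problem, `δ_w → 1/2` (the conjecture of Kahn and Saks), while `δ_w < 1/2` for every `w ≥ 1`
(the starting result `BalanceUpperBound`).  Hence for every `w ≥ 1` all but finitely many `v` have
`δ_w < δ_v`, and `δ_w < δ_{w+1}` for infinitely many `w`.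
-/

set_option autoImplicit false

open Filter Topology

namespace Pool.Agent.Results.MP_c890a7_co.LimitHalf

open Pool.Agent.H293R3.BC Pool.Agent.TH161.LW

/-- a copy of `Fin n` without its order -/
def CC (n : ℕ) : Type := Fin n

instance (n : ℕ) : Fintype (CC n) := inferInstanceAs (Fintype (Fin n))

/-- the order given by a relation -/
@[reducible] def po {n : ℕ} (r : Fin n → Fin n → Prop) (h : IsPo r) : PartialOrder (CC n) where
  le a b := r a b
  le_refl := h.1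
  le_trans := h.2.1
  le_antisymm := h.2.2

lemma eN_card {P : Type} [Fintype P] [PartialOrder P] {n : ℕ} (hn : Fintype.card P = n) :
    eN P = Nat.card {σ : P ≃ Fin n // ∀ a b, a ≤ b → σ a ≤ σ b} := by
  subst hn
  unfold eN
  refine Nat.card_congr (Equiv.subtypeEquivRight fun σ => ?_)
  exact ⟨fun h _ _ hab => h.monotone hab,
    fun h => Monotone.strictMono_of_injective (fun a b hab => h a b hab) σ.injective⟩

lemma eP_card {P : Type} [Fintype P] [PartialOrder P] {n : ℕ} (hn : Fintype.card P = n)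
    (x y : P) : eP P x y =
      Nat.card {σ : P ≃ Fin n // (∀ a b, a ≤ b → σ a ≤ σ b) ∧ σ x < σ y} := by
  subst hn
  unfold eP
  refine Nat.card_congr (Equiv.subtypeEquivRight fun σ => ?_)
  exact ⟨fun h => ⟨fun _ _ hab => h.1.monotone hab, h.2⟩,
    fun h => ⟨Monotone.strictMono_of_injective (fun a b hab => h.1 a b hab) σ.injective, h.2⟩⟩

lemma eP_zero {P : Type} [Fintype P] [PartialOrder P] {x y : P} (h : x ≤ y) : eP P y x = 0 := by
  unfold eP
  rw [Nat.card_eq_zero]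
  left
  constructor
  rintro ⟨σ, h1, h2⟩
  exact absurd (h1.monotone h) (not_le.mpr h2)

/-- the Kahn–Saks conjecture for relations on `Fin n` -/
theorem big (ε : ℝ) (hε : 0 < ε) (hε2 : ε < 1 / 2) : ∃ W : ℕ, ∀ (n : ℕ)
    (r : Fin n → Fin n → Prop), IsPo r → (∃ s : Finset (Fin n), W ≤ s.card ∧
      ∀ a ∈ s, ∀ b ∈ s, a ≠ b → ¬ r a b) →
    ∃ x y : Fin n, ¬ r x y ∧ ¬ r y x ∧ 1 / 2 - ε ≤ min
      ((Nat.card {σ : Equiv.Perm (Fin n) //
          (∀ a b, r a b → σ a ≤ σ b) ∧ σ x < σ y} : ℝ) /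
        (Nat.card {σ : Equiv.Perm (Fin n) // ∀ a b, r a b → σ a ≤ σ b} : ℝ))
      ((Nat.card {σ : Equiv.Perm (Fin n) //
          (∀ a b, r a b → σ a ≤ σ b) ∧ σ y < σ x} : ℝ) /
        (Nat.card {σ : Equiv.Perm (Fin n) // ∀ a b, r a b → σ a ≤ σ b} : ℝ)) := by
  obtain ⟨W, hW⟩ := Pool.Agent.TH161.KS.kahn_saks ε hε hε2.le
  refine ⟨W, fun n r hr ⟨s, hsW, hs⟩ => ?_⟩
  let _ : PartialOrder (CC n) := po r hr
  have hcard : Fintype.card (CC n) = n := Fintype.card_fin n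
  obtain ⟨x, y, -, h1, h2⟩ := hW (CC n) (s : Finset (CC n))
    (fun a ha b hb hab => hs a ha b hb hab) hsW
  have he : (0 : ℝ) < eN (CC n) := by exact_mod_cast Pool.Agent.TH161.KS.eN_pos (CC n)
  have hpos : (0 : ℝ) < (1 / 2 - ε) * eN (CC n) := mul_pos (by linarith) he
  refine ⟨x, y, ?_, ?_, ?_⟩
  · intro h
    have h3 : eP (CC n) y x = 0 := eP_zero (x := x) (y := y) h
    rw [h3, Nat.cast_zero] at h2
    linarith
  · intro h
    have h3 : eP (CC n) x y = 0 := eP_zero (x := y) (y := x) h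
    rw [h3, Nat.cast_zero] at h1
    linarith
  · have e1 := eN_card hcard
    have e2 := eP_card hcard x y
    have e3 := eP_card hcard y x
    have e1' : eN (CC n) = Nat.card {σ : Equiv.Perm (Fin n) // ∀ a b, r a b → σ a ≤ σ b} := e1
    have e2' : eP (CC n) x y = Nat.card {σ : Equiv.Perm (Fin n) //
      (∀ a b, r a b → σ a ≤ σ b) ∧ σ x < σ y} := e2
    have e3' : eP (CC n) y x = Nat.card {σ : Equiv.Perm (Fin n) //
      (∀ a b, r a b → σ a ≤ σ b) ∧ σ y < σ x} := e3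
    rw [← e1', ← e2', ← e3']
    refine le_min ?_ ?_
    · rw [le_div_iff₀ he]; exact h1
    · rw [le_div_iff₀ he]; exact h2

theorem result :
    ∀ δ : ℕ → ℝ,
      (∀ w : ℕ, δ w = sInf {d : ℝ | ∃ (n : ℕ) (r : Fin n → Fin n → Prop),
          (∀ a, r a a) ∧ (∀ a b c, r a b → r b c → r a c) ∧
          (∀ a b, r a b → r b a → a = b) ∧
          (∃ s : Finset (Fin n), s.card = w ∧ ∀ a ∈ s, ∀ b ∈ s, a ≠ b → ¬ r a b) ∧
          (∀ s : Finset (Fin n), (∀ a ∈ s, ∀ b ∈ s, a ≠ b → ¬ r a b) → s.card ≤ w) ∧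
          d = sSup {t : ℝ | ∃ x y : Fin n, ¬ r x y ∧ ¬ r y x ∧
            t = min
              ((Nat.card {σ : Equiv.Perm (Fin n) //
                  (∀ a b, r a b → σ a ≤ σ b) ∧ σ x < σ y} : ℝ) /
                (Nat.card {σ : Equiv.Perm (Fin n) // ∀ a b, r a b → σ a ≤ σ b} : ℝ))
              ((Nat.card {σ : Equiv.Perm (Fin n) //
                  (∀ a b, r a b → σ a ≤ σ b) ∧ σ y < σ x} : ℝ) /
                (Nat.card {σ : Equiv.Perm (Fin n) // ∀ a b, r a b → σ a ≤ σ b} : ℝ))}}) →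
      Tendsto δ atTop (𝓝 (1 / 2)) ∧
      (∀ w : ℕ, 1 ≤ w → ∃ V : ℕ, ∀ v : ℕ, V ≤ v → δ w < δ v) ∧
      (∀ V : ℕ, ∃ w : ℕ, V ≤ w ∧ δ w < δ (w + 1)) := by
  classical
  intro δ hδ
  have hup : ∀ w : ℕ, 1 ≤ w → δ w ≤ 1 / 2 - 1 / (12 * (w : ℝ) - 8) := by
    intro w hw
    obtain ⟨n, r, -, -, h⟩ := exists_poset w hw
    have hb : (0 : ℝ) ≤ 1 / 2 - 1 / (12 * (w : ℝ) - 8) := by
      have hw1 : (1 : ℝ) ≤ w := by exact_mod_cast hw
      have : 1 / (12 * (w : ℝ) - 8) ≤ 1 / 4 := by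
        apply one_div_le_one_div_of_le (by norm_num)
        linarith
      linarith
    rw [hδ w]
    refine csInf_le_of_le ⟨0, ?_⟩ ⟨n, r, h.po.1, h.po.2.1, h.po.2.2, h.wid, h.wid_le, rfl⟩ ?_
    · rintro d ⟨m, q, -, -, -, -, -, rfl⟩
      apply Real.sSup_nonneg
      rintro t ⟨x, y, -, -, rfl⟩
      exact le_min (by positivity) (by positivity)
    · apply Real.sSup_le _ hb
      rintro t ⟨x, y, hxy, hyx, rfl⟩
      rw [card_E, card_A, card_A]
      exact h.bal x y hxy hyx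
  have hlt : ∀ w : ℕ, 1 ≤ w → δ w < 1 / 2 := by
    intro w hw
    have h1 := hup w hw
    have hw1 : (1 : ℝ) ≤ w := by exact_mod_cast hw
    have h2 : 0 < 1 / (12 * (w : ℝ) - 8) := by
      apply one_div_pos.mpr
      linarith
    linarith
  have hlow : ∀ ε : ℝ, 0 < ε → ∃ W : ℕ, ∀ w : ℕ, W ≤ w → 1 / 2 - ε ≤ δ w := by
    intro ε hε
    obtain ⟨W, hW⟩ := big (min ε (1 / 4)) (lt_min hε (by norm_num))
      ((min_le_right _ _).trans_lt (by norm_num))
    refine ⟨W + 1, fun w hw => ?_⟩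
    obtain ⟨n₀, r₀, -, -, h₀⟩ := exists_poset w (by omega)
    rw [hδ w]
    refine le_csInf ⟨_, n₀, r₀, h₀.po.1, h₀.po.2.1, h₀.po.2.2, h₀.wid, h₀.wid_le, rfl⟩ ?_
    rintro d ⟨n, r, h1, h2, h3, ⟨s, hs1, hs2⟩, -, rfl⟩
    obtain ⟨x, y, hx, hy, hxy⟩ := hW n r ⟨h1, h2, h3⟩ ⟨s, by omega, hs2⟩
    have h4 : 1 / 2 - ε ≤ 1 / 2 - min ε (1 / 4) := by
      have := min_le_left ε (1 / 4)
      linarith
    refine (h4.trans hxy).trans (le_csSup ?_ ⟨x, y, hx, hy, rfl⟩)
    refine ⟨1, ?_⟩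
    rintro t ⟨u, v, -, -, rfl⟩
    refine (min_le_left _ _).trans (div_le_one_of_le₀ ?_ (by positivity))
    have h5 : Nat.card {σ : Equiv.Perm (Fin n) // (∀ a b, r a b → σ a ≤ σ b) ∧ σ u < σ v} ≤
        Nat.card {σ : Equiv.Perm (Fin n) // ∀ a b, r a b → σ a ≤ σ b} :=
      Nat.card_le_card_of_injective (fun σ => ⟨σ.1, σ.2.1⟩) (fun a b h => by
        rw [Subtype.mk.injEq] at h
        exact Subtype.ext h)
    exact_mod_cast h5
  have hgrow : ∀ w : ℕ, 1 ≤ w → ∃ V : ℕ, ∀ v : ℕ, V ≤ v → δ w < δ v := by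
    intro w hw
    obtain ⟨V, hV⟩ := hlow ((1 / 2 - δ w) / 2) (by linarith [hlt w hw])
    exact ⟨V, fun v hv => by linarith [hV v hv, hlt w hw]⟩
  refine ⟨?_, hgrow, ?_⟩
  · rw [Metric.tendsto_atTop]
    intro ε hε
    obtain ⟨W, hW⟩ := hlow (ε / 2) (by linarith)
    refine ⟨W + 1, fun w hw => ?_⟩
    have h1 := hW w (by omega)
    have h2 := hlt w (by omega)
    rw [Real.dist_eq, abs_lt]
    constructor <;> linarith
  · intro V
    by_contra hcon
    push Not at hcon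
    obtain ⟨V', hV'⟩ := hgrow (V + 1) (by omega)
    have h1 : ∀ k : ℕ, δ (V + 1 + k) ≤ δ (V + 1) := by
      intro k
      induction k with
      | zero => exact le_rfl
      | succ k ih => exact (hcon (V + 1 + k) (by omega)).trans ih
    have h2 := hV' (V + 1 + V') (by omega)
    have h3 := h1 V'
    linarith

end Pool.Agent.Results.MP_c890a7_co.LimitHalf
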