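import Pool.Agent.TH447.KS.SemiFin

/-!
# Minimal balance constants of semiorders by width

`dS w` is the infimum of the balance constants of the semiorders of width `w`.  Then `dS 1 = 0`,
`dS 2 = 1/3` and `dS w ≥ 1/3 + 1/3000000` for every `w ≥ 3`: the first two inequalities
`δ_1 < δ_2 < δ_w` of the problem hold for semiorders.  More precisely, a semiorder is a direct sum
of one-element posets and of copies of the three-element poset with one relation, or its balance
constant is at least `1/3 + 1/3000000`.
-/

set_option autoImplicit false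

namespace Pool.Agent.Results.MP_c890a7_co.SemiorderWidths

open Pool.Agent.H13R3.WB Pool.Agent.H931R3.Bal Pool.Agent.TH447.KS

theorem result :
    (∀ (P : Type) [Fintype P] [PartialOrder P] [Nonempty P], IsSemiorder P →
      InD P ∨ 1 / 3 + 1 / 3000000 ≤ balance P) ∧
    dS 1 = 0 ∧ dS 2 = 1 / 3 ∧ ∀ w : ℕ, 3 ≤ w → 1 / 3 + 1 / 3000000 ≤ dS w :=
  ⟨fun P _ _ _ h => semi_gap _ P rfl h, dS_one, dS_two, fun w hw => dS_large hw⟩

end Pool.Agent.Results.MP_c890a7_co.SemiorderWidths
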